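import Mathlib
import Pool.Agent.H737R3.Cont.Main

set_option autoImplicit false

namespace Pool.Agent.Results.MP_cc5cd7_ag.PlaneCharZero

open MvPolynomial

/-- the homogeneous ideal of the point of the projective plane with homogeneous coordinates `q` -/
noncomputable def pointIdeal {K : Type*} [Field K] (q : Fin 3 → K) :
    Ideal (MvPolynomial (Fin 3) K) :=
  Ideal.span (Set.range (fun jl : Fin 3 × Fin 3 =>
    (X jl.1 * C (q jl.2) - X jl.2 * C (q jl.1) : MvPolynomial (Fin 3) K)))

/-- the ideal of the fat point scheme `∑ μ i • p i` in the projective plane -/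
noncomputable def fatIdeal {K : Type*} [Field K] {s : ℕ} (p : Fin s → Fin 3 → K)
    (μ : Fin s → ℕ) : Ideal (MvPolynomial (Fin 3) K) :=
  ⨅ i : Fin s, pointIdeal (p i) ^ (μ i)

/-- **The refined containment for fat points in the plane, characteristic zero.** For every fat
point scheme `Z` in the projective plane over a field of characteristic zero and all `r, m ≥ 1`,
`I(r (m + 1) Z) ⊆ M^r I(m Z)^r`. -/
theorem result (K : Type*) [Field K] [CharZero K] (s : ℕ) (p : Fin s → Fin 3 → K)
    (hp : ∀ i, p i ≠ 0) (μ : Fin s → ℕ) (hμ : ∃ i, 1 ≤ μ i) (r m : ℕ) (hr : 1 ≤ r) (_hm : 1 ≤ m) :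
    fatIdeal p (fun i => r * (m + 1) * μ i) ≤
      (Ideal.span (Set.range (fun j : Fin 3 => (X j : MvPolynomial (Fin 3) K)))) ^ r *
        (fatIdeal p (fun i => m * μ i)) ^ r := by
  classical
  -- the points with positive multiplicity
  set T := {i : Fin s // 1 ≤ μ i} with hT
  obtain ⟨i0, hi0⟩ := hμ
  have hcard : 0 < Fintype.card T := Fintype.card_pos_iff.2 ⟨⟨i0, hi0⟩⟩
  let e : Fin (Fintype.card T) ≃ T := (Fintype.equivFin T).symm
  have h1 : ∀ i, pointIdeal (p i) = Pool.Agent.H737R3.linI (p i) :=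
    fun i => Pool.Agent.H737R3.span_eq_linI (hp i)
  have key := Pool.Agent.H737R3.Cont.cont (n := 2) le_rfl hcard (by omega : 0 < r)
    (fun j => p (e j)) (fun j => hp _) (fun j => m * μ (e j))
  unfold fatIdeal
  simp only [h1]
  intro F hF
  rw [Submodule.mem_iInf] at hF
  have h2 : F ∈ ⨅ j, Pool.Agent.H737R3.linI (p (e j)) ^ (r * (m * μ (e j) + 2 - 1)) := by
    rw [Submodule.mem_iInf]
    intro j
    refine Ideal.pow_le_pow_right ?_ (hF (e j))
    have h3 : m * μ (e j) + 2 - 1 ≤ (m + 1) * μ (e j) := by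
      have h4 : (m + 1) * μ (e j) = m * μ (e j) + μ (e j) := by ring
      have h5 := (e j).2
      omega
    calc r * (m * μ (e j) + 2 - 1) ≤ r * ((m + 1) * μ (e j)) := Nat.mul_le_mul_left _ h3
      _ = r * (m + 1) * μ (e j) := by ring
  have h3 := key h2
  refine Ideal.mul_mono_right (Ideal.pow_right_mono ?_ r) h3
  intro f hf
  rw [Submodule.mem_iInf] at hf ⊢
  intro i
  rcases Nat.eq_zero_or_pos (μ i) with h0 | h0
  · rw [h0, mul_zero, pow_zero, Ideal.one_eq_top]
    exact Submodule.mem_top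
  · have h4 := hf (e.symm ⟨i, h0⟩)
    rwa [Equiv.apply_symm_apply] at h4

end Pool.Agent.Results.MP_cc5cd7_ag.PlaneCharZero
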